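import Mathlib

namespace Pool.Agent.Results.MP_1f9696_lc.ClassesEqual

open Encodable

/-- The (total) characteristic function of the oracle `A`, as a partial function `ℕ →. ℕ`,
the form in which Mathlib's `TuringReducible` takes its oracle. -/
noncomputable def oracleFn (A : Set ℕ) : ℕ →. ℕ :=
  fun n => Part.some (Set.indicator A (fun _ => 1) n)

/-- `D(≠*, h)`: the class of oracles `A` computing a function `x : ℕ → ℕ` such that every
computable `y` with `y n < h n` for all `n` satisfies `x n = y n` for infinitely many `n`. -/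
def DNeqStar (h : ℕ → ℕ) : Set (Set ℕ) :=
  {A | ∃ x : ℕ → ℕ, TuringReducible (fun n => Part.some (x n)) (oracleFn A) ∧
    ∀ y : ℕ → ℕ, Computable y → (∀ n, y n < h n) → {n | x n = y n}.Infinite}

/-- total function recursive in `O`. -/
abbrev Rec (O : Set (ℕ →. ℕ)) (f : ℕ → ℕ) : Prop :=
  Nat.RecursiveIn O (fun n => Part.some (f n))

theorem Rec.of_eq {O} {f g : ℕ → ℕ} (hf : Rec O f) (h : ∀ n, f n = g n) : Rec O g := by
  have : f = g := funext h
  exact this ▸ hf

theorem Rec.of_primrec {O} {f : ℕ → ℕ} (hf : Primrec f) : Rec O f := by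
  have := Nat.Primrec.recursiveIn (O := O) (Primrec.nat_iff.1 hf)
  exact this

theorem Rec.of_computable {O} {f : ℕ → ℕ} (hf : Computable f) : Rec O f := by
  have h : Nat.Partrec (fun n => Part.some (f n)) := by
    have := Partrec.nat_iff.1 hf.partrec
    exact this
  exact h.recursiveIn

theorem Rec.pair {O} {f g : ℕ → ℕ} (hf : Rec O f) (hg : Rec O g) :
    Rec O (fun n => Nat.pair (f n) (g n)) := by
  have := Nat.RecursiveIn.pair hf hg
  refine this.of_eq fun n => ?_
  simp [Seq.seq]

theorem Rec.comp {O} {f g : ℕ → ℕ} (hf : Rec O f) (hg : Rec O g) :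
    Rec O (fun n => f (g n)) := by
  have := Nat.RecursiveIn.comp hf hg
  refine this.of_eq fun n => ?_
  simp

/-- code of the first `b` values of `x` -/
def initCode (x : ℕ → ℕ) (b : ℕ) : ℕ := encode ((List.range b).map x)

theorem Rec.init {O} {x : ℕ → ℕ} (hx : Rec O x) : Rec O (fun b => initCode x b) := by
  -- step function
  let cc : ℕ → ℕ := fun p =>
    encode ((decode (α := List ℕ) p.unpair.1).getD [] ++ [p.unpair.2])
  have hcc : Primrec cc := by
    refine Primrec.encode.comp ?_
    refine Primrec.list_concat.comp (Primrec.option_getD.comp (Primrec.decode.comp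
      (Primrec.fst.comp Primrec.unpair)) (Primrec.const [])) (Primrec.snd.comp Primrec.unpair)
  have h0 : Rec O (fun _ => encode ([] : List ℕ)) := Rec.of_primrec (Primrec.const _)
  have hstep : Rec O (fun q => cc (Nat.pair q.unpair.2.unpair.2 (x q.unpair.2.unpair.1))) := by
    refine Rec.comp (Rec.of_primrec hcc) (Rec.pair ?_ (Rec.comp hx ?_))
    · exact Rec.of_primrec (Primrec.snd.comp (Primrec.unpair.comp
        (Primrec.snd.comp Primrec.unpair)))
    · exact Rec.of_primrec (Primrec.fst.comp (Primrec.unpair.comp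
        (Primrec.snd.comp Primrec.unpair)))
  have hp := Nat.RecursiveIn.prec h0 hstep
  have hp2 : Rec O (fun p => initCode x p.unpair.2) := by
    refine hp.of_eq fun p => ?_
    dsimp only
    generalize (Nat.unpair p).2 = n
    generalize (Nat.unpair p).1 = a
    induction n with
    | zero => simp [initCode]
    | succ n ih =>
      simp only [ih]
      simp [initCode, cc, List.range_succ]
  have := Rec.comp hp2 (Rec.of_primrec (O := O) (f := fun n => Nat.pair 0 n)
    (Primrec₂.natPair.comp (Primrec.const 0) Primrec.id))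
  refine this.of_eq fun n => ?_
  simp

/-! ### Coding -/

def ss (k : ℕ) : ℕ := (k+1)^3 - k^3
def NN (k : ℕ) : ℕ := (k+1)^5 - k^5
def BB (k : ℕ) : ℕ := 2^(Nat.factorial ((k+1)^3))
def WW (k : ℕ) : ℕ := (BB k)^(ss k)
def kM (m : ℕ) : ℕ := Nat.findGreatest (fun k => k^3 ≤ m) m
def kI (n : ℕ) : ℕ := Nat.findGreatest (fun k => k^5 ≤ n) n
def digit (k v j : ℕ) : ℕ := v / (BB k)^j % BB k
def vecL (Y : List ℕ) (k : ℕ) : ℕ :=
  Nat.ofDigits (BB k) ((List.range (ss k)).map (fun j => Y.getD (k^3 + j) 0))
def vote (k u : ℕ) : ℕ := u % WW k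
def wpt (k u : ℕ) : ℕ := u / WW k % WW k
def votes (L : List ℕ) (k : ℕ) : List ℕ :=
  (List.range (NN k)).map (fun i => vote k (L.getD (k^5 + i) 0))
def cnt (V : List ℕ) (i : ℕ) : ℕ :=
  ((List.range i).filter (fun i' => V.getD i' 0 = V.getD i 0)).length
def posPop (V : List ℕ) (s : ℕ) : List ℕ :=
  (List.range V.length).filter (fun i => cnt V i + 1 = s)
def posEq (V : List ℕ) (v : ℕ) : List ℕ :=
  (List.range V.length).filter (fun i => V.getD i 0 = v)

def g1 (m : ℕ) (L : List ℕ) : ℕ :=
  digit (kM m) (vote (kM m) (L.getD ((kM m)^5 + (posPop (votes L (kM m)) (ss (kM m))).getD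
    (m - (kM m)^3) 0) 0)) (m - (kM m)^3)

def g2 (m : ℕ) (L : List ℕ) (Y : List ℕ) : ℕ :=
  digit (kM m) (wpt (kM m) (L.getD ((kM m)^5 + (posEq (votes L (kM m)) (vecL Y (kM m))).getD
    (m - (kM m)^3) 0) 0)) (m - (kM m)^3)

def g3 (n : ℕ) (Z : List ℕ) (Y : List ℕ) : ℕ :=
  if 10 ≤ kI n then vecL Z (kI n) + WW (kI n) * vecL Y (kI n) else 0

section prim
open Primrec

theorem prim_pow : Primrec₂ (fun a b : ℕ => a ^ b) :=
  Primrec₂.unpaired'.1 Nat.Primrec.pow

theorem prim_fact : Primrec Nat.factorial := by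
  refine (Primrec.nat_rec₁ (f := fun n ih => (n+1) * ih) 1
    (nat_mul.comp₂ (succ.comp₂ Primrec₂.left) Primrec₂.right)).of_eq fun n => ?_
  induction n with
  | zero => rfl
  | succ n ih => simp only [Nat.factorial_succ, ← ih]

theorem prim_powc (c : ℕ) : Primrec (fun a : ℕ => a ^ c) :=
  prim_pow.comp Primrec.id (Primrec.const c)

theorem prim_ss : Primrec ss :=
  nat_sub.comp ((prim_powc 3).comp succ) (prim_powc 3)

theorem prim_NN : Primrec NN :=
  nat_sub.comp ((prim_powc 5).comp succ) (prim_powc 5)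

theorem prim_BB : Primrec BB :=
  prim_pow.comp (Primrec.const 2) (prim_fact.comp ((prim_powc 3).comp succ))

theorem prim_WW : Primrec WW := prim_pow.comp prim_BB prim_ss

theorem prim_kM : Primrec kM := by
  refine nat_findGreatest (f := fun m => m) (p := fun m k => k^3 ≤ m) Primrec.id ?_
  exact nat_le.comp₂ ((prim_powc 3).comp₂ Primrec₂.right) Primrec₂.left

theorem prim_kI : Primrec kI := by
  refine nat_findGreatest (f := fun m => m) (p := fun m k => k^5 ≤ m) Primrec.id ?_
  exact nat_le.comp₂ ((prim_powc 5).comp₂ Primrec₂.right) Primrec₂.left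

theorem prim_digit {α} [Primcodable α] {f g h : α → ℕ} (hf : Primrec f) (hg : Primrec g)
    (hh : Primrec h) : Primrec (fun a => digit (f a) (g a) (h a)) :=
  nat_mod.comp (nat_div.comp hg (prim_pow.comp (prim_BB.comp hf) hh)) (prim_BB.comp hf)

theorem prim_getD {α} [Primcodable α] {f : α → List ℕ} {g : α → ℕ} (hf : Primrec f)
    (hg : Primrec g) : Primrec (fun a => (f a).getD (g a) 0) :=
  (list_getD 0).comp hf hg

theorem prim_vecL : Primrec₂ vecL := by
  have : Primrec (fun p : List ℕ × ℕ =>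
      ((List.range (ss p.2)).map (fun j => p.1.getD (p.2^3 + j) 0))) := by
    refine list_map (list_range.comp (prim_ss.comp snd)) ?_
    exact (prim_getD (fst.comp fst)
      (nat_add.comp ((prim_powc 3).comp (snd.comp fst)) snd)).to₂
  refine Primrec₂.mk ?_
  have h2 := list_foldr (f := fun p : List ℕ × ℕ =>
      ((List.range (ss p.2)).map (fun j => p.1.getD (p.2^3 + j) 0)))
      (g := fun _ => 0) (h := fun p q => q.1 + BB p.2 * q.2) this (Primrec.const 0)
      ((nat_add.comp (fst.comp snd) (nat_mul.comp (prim_BB.comp (snd.comp fst))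
        (snd.comp snd))).to₂)
  refine h2.of_eq fun p => ?_
  simp only [vecL, Nat.ofDigits_eq_foldr]
  rfl

theorem prim_vote : Primrec₂ vote :=
  (nat_mod.comp snd (prim_WW.comp fst)).to₂

theorem prim_wpt : Primrec₂ wpt :=
  (nat_mod.comp (nat_div.comp snd (prim_WW.comp fst)) (prim_WW.comp fst)).to₂

theorem prim_votes : Primrec₂ votes := by
  refine Primrec₂.mk ?_
  refine list_map (list_range.comp (prim_NN.comp snd)) ?_
  exact (prim_vote.comp (snd.comp fst) (prim_getD (fst.comp fst)
    (nat_add.comp ((prim_powc 5).comp (snd.comp fst)) snd))).to₂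

theorem prim_cnt : Primrec₂ cnt := by
  have hR : PrimrecRel (fun (i' : ℕ) (p : List ℕ × ℕ) => p.1.getD i' 0 = p.1.getD p.2 0) := by
    exact PrimrecRel.comp₂ Primrec.eq
      ((prim_getD (fst.comp snd) fst).to₂)
      ((prim_getD (fst.comp snd) (snd.comp snd)).to₂)
  have := hR.listFilter
  refine Primrec₂.mk ?_
  exact list_length.comp (this.comp (list_range.comp snd) Primrec.id)

theorem prim_posPop : Primrec₂ posPop := by
  have hR : PrimrecRel (fun (i : ℕ) (p : List ℕ × ℕ) => cnt p.1 i + 1 = p.2) := by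
    exact PrimrecRel.comp₂ Primrec.eq
      ((succ.comp (prim_cnt.comp (fst.comp snd) fst)).to₂)
      ((snd.comp snd).to₂)
  have := hR.listFilter
  refine Primrec₂.mk ?_
  exact this.comp (list_range.comp (list_length.comp fst)) Primrec.id

theorem prim_posEq : Primrec₂ posEq := by
  have hR : PrimrecRel (fun (i : ℕ) (p : List ℕ × ℕ) => p.1.getD i 0 = p.2) := by
    exact PrimrecRel.comp₂ Primrec.eq
      ((prim_getD (fst.comp snd) fst).to₂)
      ((snd.comp snd).to₂)
  have := hR.listFilter
  refine Primrec₂.mk ?_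
  exact this.comp (list_range.comp (list_length.comp fst)) Primrec.id

theorem prim_g1 : Primrec (fun p : ℕ × List ℕ => g1 p.1 p.2) := by
  have hk : Primrec (fun p : ℕ × List ℕ => kM p.1) := prim_kM.comp fst
  have hj : Primrec (fun p : ℕ × List ℕ => p.1 - (kM p.1)^3) :=
    nat_sub.comp fst ((prim_powc 3).comp hk)
  refine prim_digit hk (prim_vote.comp hk (prim_getD snd (nat_add.comp ((prim_powc 5).comp hk)
    (prim_getD (prim_posPop.comp (prim_votes.comp snd hk) (prim_ss.comp hk)) hj)))) hj

theorem prim_g2 : Primrec (fun p : ℕ × List ℕ × List ℕ => g2 p.1 p.2.1 p.2.2) := by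
  have hk : Primrec (fun p : ℕ × List ℕ × List ℕ => kM p.1) := prim_kM.comp fst
  have hj : Primrec (fun p : ℕ × List ℕ × List ℕ => p.1 - (kM p.1)^3) :=
    nat_sub.comp fst ((prim_powc 3).comp hk)
  refine prim_digit hk (prim_wpt.comp hk (prim_getD (fst.comp snd)
    (nat_add.comp ((prim_powc 5).comp hk)
    (prim_getD (prim_posEq.comp (prim_votes.comp (fst.comp snd) hk)
      (prim_vecL.comp (snd.comp snd) hk)) hj)))) hj

theorem prim_g3 : Primrec (fun p : ℕ × List ℕ × List ℕ => g3 p.1 p.2.1 p.2.2) := by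
  have hk : Primrec (fun p : ℕ × List ℕ × List ℕ => kI p.1) := prim_kI.comp fst
  refine Primrec.ite (nat_le.comp (Primrec.const 10) hk) ?_ (Primrec.const 0)
  exact nat_add.comp (prim_vecL.comp (fst.comp snd) hk)
    (nat_mul.comp (prim_WW.comp hk) (prim_vecL.comp (snd.comp snd) hk))

end prim

theorem Rec.apply2 {O} {x : ℕ → ℕ} (hx : Rec O x) {g : ℕ → List ℕ → ℕ}
    (hg : Primrec (fun p : ℕ × List ℕ => g p.1 p.2)) {b : ℕ → ℕ} (hb : Primrec b) :
    Rec O (fun m => g m ((List.range (b m)).map x)) := by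
  let g' : ℕ → ℕ := fun q => g q.unpair.1 ((decode (α := List ℕ) q.unpair.2).getD [])
  have hg' : Primrec g' := hg.comp (Primrec.pair (Primrec.fst.comp Primrec.unpair)
    (Primrec.option_getD.comp (Primrec.decode.comp (Primrec.snd.comp Primrec.unpair))
      (Primrec.const [])))
  have := (Rec.of_primrec (O := O) hg').comp (Rec.pair (Rec.of_primrec Primrec.id)
    (hx.init.comp (Rec.of_primrec hb)))
  refine this.of_eq fun m => ?_
  simp [g', initCode]

theorem Rec.apply3 {O} {x y : ℕ → ℕ} (hx : Rec O x) (hy : Rec O y)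
    {g : ℕ → List ℕ → List ℕ → ℕ}
    (hg : Primrec (fun p : ℕ × List ℕ × List ℕ => g p.1 p.2.1 p.2.2)) {b b' : ℕ → ℕ}
    (hb : Primrec b) (hb' : Primrec b') :
    Rec O (fun m => g m ((List.range (b m)).map x) ((List.range (b' m)).map y)) := by
  let g' : ℕ → ℕ := fun q => g q.unpair.1 ((decode (α := List ℕ) q.unpair.2.unpair.1).getD [])
    ((decode (α := List ℕ) q.unpair.2.unpair.2).getD [])
  have h2 : Primrec (fun q : ℕ => q.unpair.2.unpair) :=
    Primrec.unpair.comp (Primrec.snd.comp Primrec.unpair)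
  have hg' : Primrec g' := hg.comp (Primrec.pair (Primrec.fst.comp Primrec.unpair)
    (Primrec.pair
    (Primrec.option_getD.comp (Primrec.decode.comp (Primrec.fst.comp h2)) (Primrec.const []))
    (Primrec.option_getD.comp (Primrec.decode.comp (Primrec.snd.comp h2)) (Primrec.const []))))
  have := (Rec.of_primrec (O := O) hg').comp (Rec.pair (Rec.of_primrec Primrec.id)
    (Rec.pair (hx.init.comp (Rec.of_primrec hb)) (hy.init.comp (Rec.of_primrec hb'))))
  refine this.of_eq fun m => ?_
  simp [g', initCode]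

theorem computable_of_rec_empty {f : ℕ → ℕ} (hf : Rec ∅ f) : Computable f := by
  have h : Nat.Partrec (fun n => Part.some (f n)) :=
    Nat.RecursiveIn.partrec_of_oracle (by simp) hf
  exact Partrec.nat_iff.2 h

/-! ### Combinatorics -/

theorem digit_vec (k : ℕ) (L : List ℕ) (hL : ∀ x ∈ L, x < BB k) (j : ℕ) :
    digit k (Nat.ofDigits (BB k) L) j = L.getD j 0 := by
  unfold digit
  have hB : 0 < BB k := by unfold BB; positivity
  induction L generalizing j with
  | nil => simp
  | cons a l ih =>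
    have ha : a < BB k := hL a (by simp)
    have hl : ∀ x ∈ l, x < BB k := fun x hx => hL x (by simp [hx])
    cases j with
    | zero => simp [Nat.ofDigits_cons, Nat.mod_eq_of_lt ha]
    | succ j =>
      rw [Nat.ofDigits_cons, pow_succ', ← Nat.div_div_eq_div_mul,
        Nat.add_mul_div_left _ _ hB, Nat.div_eq_of_lt ha, Nat.zero_add, ih hl j]
      simp

theorem cnt_eq (V : List ℕ) (i : ℕ) :
    cnt V i = Nat.count (fun i' => V.getD i' 0 = V.getD i 0) i := by
  unfold cnt Nat.count
  rw [List.countP_eq_length_filter]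

theorem length_posEq (V : List ℕ) (v : ℕ) :
    (posEq V v).length = Nat.count (fun i' => V.getD i' 0 = v) V.length := by
  unfold posEq Nat.count
  rw [List.countP_eq_length_filter]

theorem exists_posPop (V : List ℕ) (v s : ℕ) (hs : 0 < s)
    (h : s ≤ (posEq V v).length) : ∃ i ∈ posPop V s, V.getD i 0 = v := by
  rw [length_posEq] at h
  -- least n with count ≥ s
  have hex : ∃ n, s ≤ Nat.count (fun i' => V.getD i' 0 = v) n := ⟨_, h⟩
  classical
  let n := Nat.find hex
  have hn : s ≤ Nat.count (fun i' => V.getD i' 0 = v) n := Nat.find_spec hex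
  have hnle : n ≤ V.length := Nat.find_min' hex h
  have hn0 : n ≠ 0 := by
    intro h0
    rw [h0] at hn
    simp at hn
    omega
  obtain ⟨m, hm⟩ := Nat.exists_eq_succ_of_ne_zero hn0
  have hm2 : ¬ s ≤ Nat.count (fun i' => V.getD i' 0 = v) m :=
    Nat.find_min hex (by omega)
  have hm3 : Nat.count (fun i' => V.getD i' 0 = v) (m+1) ≥ s := by
    rw [← Nat.succ_eq_add_one, ← hm]; exact hn
  rw [Nat.count_succ] at hm3
  have hvm : V.getD m 0 = v := by
    by_contra hne
    rw [if_neg hne] at hm3
    omega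
  refine ⟨m, ?_, hvm⟩
  unfold posPop
  rw [List.mem_filter]
  refine ⟨List.mem_range.2 (by omega), ?_⟩
  rw [if_pos hvm] at hm3
  simp only [decide_eq_true_eq]
  rw [cnt_eq, hvm]
  omega

theorem length_posPop (V : List ℕ) (s : ℕ) :
    (posPop V s).length * s ≤ V.length := by
  have hnd : (posPop V s).Nodup := (List.nodup_range).filter _
  rw [← List.toFinset_card_of_nodup hnd]
  set P := (posPop V s).toFinset with hP
  have hmem : ∀ i, i ∈ P ↔ i < V.length ∧ cnt V i + 1 = s := by
    intro i
    rw [hP, List.mem_toFinset]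
    unfold posPop
    rw [List.mem_filter]
    simp
  let S : ℕ → Finset ℕ := fun i =>
    (Finset.range (i+1)).filter (fun i' => V.getD i' 0 = V.getD i 0)
  have hS : ∀ i ∈ P, (S i).card = s := by
    intro i hi
    have h1 : (S i).card = Nat.count (fun i' => V.getD i' 0 = V.getD i 0) (i+1) :=
      (Nat.count_eq_card_filter_range _ _).symm
    rw [h1, Nat.count_succ, if_pos rfl, ← cnt_eq]
    exact ((hmem i).1 hi).2
  have hdis : (P : Set ℕ).PairwiseDisjoint S := by
    intro i hi i' hi' hne
    rw [Function.onFun, Finset.disjoint_left]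
    intro z hz hz'
    simp only [S, Finset.mem_filter, Finset.mem_range] at hz hz'
    have heq : V.getD i 0 = V.getD i' 0 := by rw [← hz.2, ← hz'.2]
    have hi2 := ((hmem i).1 hi).2
    have hi2' := ((hmem i').1 hi').2
    rw [cnt_eq] at hi2 hi2'
    rw [← heq] at hi2'
    apply hne
    refine Nat.count_injective (p := fun j => V.getD j 0 = V.getD i 0) rfl heq.symm ?_
    omega
  have hcard := Finset.card_biUnion hdis
  rw [Finset.sum_congr rfl hS, Finset.sum_const, smul_eq_mul] at hcard
  rw [← hcard]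
  have hsub : P.biUnion S ⊆ Finset.range V.length := by
    intro z hz
    rw [Finset.mem_biUnion] at hz
    obtain ⟨i, hi, hz⟩ := hz
    simp only [S, Finset.mem_filter, Finset.mem_range] at hz
    have := ((hmem i).1 hi).1
    rw [Finset.mem_range]
    omega
  simpa using Finset.card_le_card hsub

theorem exists_index {l : List ℕ} {i : ℕ} (h : i ∈ l) : ∃ j < l.length, l.getD j 0 = i := by
  obtain ⟨j, hj, hji⟩ := List.mem_iff_getElem.1 h
  refine ⟨j, hj, ?_⟩
  rw [List.getD_eq_getElem _ _ hj, hji]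

theorem ss_pos (k : ℕ) : 0 < ss k := by
  unfold ss
  have : k^3 < (k+1)^3 := Nat.pow_lt_pow_left (Nat.lt_succ_self k) (by norm_num)
  omega

theorem ss_eq (k : ℕ) : ss k = 3*k^2+3*k+1 := by
  unfold ss
  have : (k+1)^3 = k^3 + (3*k^2+3*k+1) := by ring
  omega

theorem NN_le (k : ℕ) : NN k ≤ ss k * ss k := by
  rw [ss_eq]
  unfold NN
  have : (k+1)^5 = k^5 + (5*k^4+10*k^3+10*k^2+5*k+1) := by ring
  have h2 : 5*k^4+10*k^3+10*k^2+5*k+1 ≤ (3*k^2+3*k+1)*(3*k^2+3*k+1) := by
    have : (3*k^2+3*k+1)*(3*k^2+3*k+1) = 9*k^4+18*k^3+15*k^2+6*k+1 := by ring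
    nlinarith [Nat.zero_le (k^4), Nat.zero_le (k^3), Nat.zero_le (k^2), Nat.zero_le k]
  omega

theorem kM_eq {k j : ℕ} (hj : j < ss k) : kM (k^3 + j) = k := by
  unfold kM
  have h3 : k ≤ k^3 := Nat.le_self_pow (by norm_num) k
  rw [Nat.findGreatest_eq_iff]
  refine ⟨by omega, fun _ => by omega, ?_⟩
  intro n hn _ hle
  have : (k+1)^3 ≤ n^3 := Nat.pow_le_pow_left hn 3
  unfold ss at hj
  omega

theorem kI_spec (n : ℕ) : (kI n)^5 ≤ n := by
  unfold kI
  exact Nat.findGreatest_spec (P := fun k => k^5 ≤ n) (Nat.zero_le n) (by simp)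

theorem lt_kI_succ (n : ℕ) : n < (kI n + 1)^5 := by
  by_contra h
  rw [not_lt] at h
  have h2 : kI n + 1 ≤ n := le_trans (Nat.le_self_pow (by norm_num) _) h
  have := Nat.le_findGreatest (P := fun k => k^5 ≤ n) h2 h
  unfold kI at this
  omega

theorem le_kI {K n : ℕ} (h : K^5 ≤ n) : K ≤ kI n := by
  by_contra hlt
  rw [not_le] at hlt
  have h1 := lt_kI_succ n
  have h2 : (kI n + 1)^5 ≤ K^5 := Nat.pow_le_pow_left hlt 5
  omega

theorem one_lt_BB (k : ℕ) : 1 < BB k := by
  unfold BB
  exact Nat.one_lt_two_pow (Nat.factorial_ne_zero _)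

theorem vecL_lt (Y : List ℕ) (k : ℕ) (h : ∀ j < ss k, Y.getD (k^3+j) 0 < BB k) :
    vecL Y k < WW k := by
  unfold vecL WW
  have := Nat.ofDigits_lt_base_pow_length (b := BB k)
    (l := (List.range (ss k)).map (fun j => Y.getD (k^3 + j) 0)) (one_lt_BB k) (by
      intro x hx
      simp only [List.mem_map, List.mem_range] at hx
      obtain ⟨j, hj, rfl⟩ := hx
      exact h j hj)
  simpa using this

theorem digit_vecL (Y : List ℕ) (k : ℕ) (h : ∀ j < ss k, Y.getD (k^3+j) 0 < BB k) {j : ℕ}
    (hj : j < ss k) : digit k (vecL Y k) j = Y.getD (k^3+j) 0 := by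
  unfold vecL
  rw [digit_vec]
  · rw [List.getD_eq_getElem _ _ (by simpa using hj)]
    simp
  · intro x hx
    simp only [List.mem_map, List.mem_range] at hx
    obtain ⟨j, hj, rfl⟩ := hx
    exact h j hj

/-- the size estimate -/
theorem size_bound {k n : ℕ} (hk : 10 ≤ k) (hn : k^5 ≤ n) : WW k * WW k ≤ 2^(2^n) := by
  unfold WW BB
  rw [← pow_mul, ← pow_add, ← mul_two, mul_assoc]
  apply Nat.pow_le_pow_right (by norm_num)
  have hN : (k+1)^3 ≤ 2 * k^3 := by nlinarith [sq_nonneg k, mul_self_nonneg (k^2)]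
  have h1 : Nat.factorial ((k+1)^3) ≤ ((k+1)^3)^((k+1)^3) := Nat.factorial_le_pow _
  have hk2 : k + 1 ≤ 2^k := Nat.lt_two_pow_self
  have h2 : ((k+1)^3)^((k+1)^3) ≤ (2^(3*k))^((k+1)^3) := by
    apply Nat.pow_le_pow_left
    calc (k+1)^3 ≤ (2^k)^3 := Nat.pow_le_pow_left hk2 3
      _ = 2^(3*k) := by rw [← pow_mul, mul_comm]
  have h3 : (2^(3*k))^((k+1)^3) ≤ 2^(3*k*(2*k^3)) := by
    rw [← pow_mul]
    exact Nat.pow_le_pow_right (by norm_num) (Nat.mul_le_mul_left _ hN)
  have h4 : ss k * 2 ≤ 2^(3*k+1) := by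
    have : ss k ≤ (k+1)^3 := by unfold ss; omega
    calc ss k * 2 ≤ (k+1)^3 * 2 := Nat.mul_le_mul_right _ this
      _ ≤ (2^k)^3 * 2 := Nat.mul_le_mul_right _ (Nat.pow_le_pow_left hk2 3)
      _ = 2^(3*k+1) := by rw [← pow_mul, mul_comm k 3, pow_succ]
  calc Nat.factorial ((k+1)^3) * (ss k * 2) ≤ 2^(3*k*(2*k^3)) * 2^(3*k+1) :=
        Nat.mul_le_mul (h1.trans (h2.trans h3)) h4
    _ = 2^(3*k*(2*k^3) + (3*k+1)) := by rw [← pow_add]
    _ ≤ 2^n := by
        apply Nat.pow_le_pow_right (by norm_num)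
        refine le_trans ?_ hn
        have e1 : 3*k*(2*k^3) = 6*k^4 := by ring
        have e2 : k^5 = k * k^4 := by ring
        have e3 : 10 * k^4 ≤ k * k^4 := Nat.mul_le_mul_right _ hk
        have e4 : k ≤ k^4 := Nat.le_self_pow (by norm_num) k
        omega

/-! ### Main argument

Block `k` consists of the inputs `m` with `k^3 ≤ m < (k+1)^3` on the side of the bound `2^(m!)` and
of the inputs `n` with `k^5 ≤ n < (k+1)^5` on the side of the bound `2^(2^n)`. The value `x n`
is read as a pair of codes of functions on the `k`-th block of the first kind: a vote and a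
second component. There are `ss k` inputs `m` in the block, and at most `ss k * ss k` inputs `n`.
First functional: list the values receiving at least `ss k` votes; there are at most `ss k` of
them, and the `j`-th one is used at the `j`-th input of the block. If this functional fails, as
witnessed by a computable `z`, then the code of `z` on block `k` gets fewer than `ss k` votes, and
the second functional uses the second components of the inputs voting for `z`. -/

theorem getD_map_range (x : ℕ → ℕ) {b i : ℕ} (h : i < b) :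
    ((List.range b).map x).getD i 0 = x i := by
  rw [List.getD_eq_getElem _ _ (by simpa using h)]
  simp

theorem pow3_add_lt {k j : ℕ} (hj : j < ss k) : k^3 + j < (k+1)^3 := by
  unfold ss at hj
  omega

theorem lt_BB_of {y : ℕ → ℕ} (hy : ∀ n, y n < 2^(Nat.factorial n)) {k m : ℕ}
    (hm : m < (k+1)^3) : y m < BB k := by
  unfold BB
  exact lt_of_lt_of_le (hy m) (Nat.pow_le_pow_right (by norm_num)
    (Nat.factorial_le hm.le))

/-- `vec y k` : the code of the block of `y` with index `k`. -/
def vec (y : ℕ → ℕ) (k : ℕ) : ℕ := vecL ((List.range ((k+1)^3)).map y) k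

theorem vec_lt {y : ℕ → ℕ} (hy : ∀ n, y n < 2^(Nat.factorial n)) (k : ℕ) : vec y k < WW k := by
  apply vecL_lt
  intro j hj
  rw [getD_map_range y (pow3_add_lt hj)]
  exact lt_BB_of hy (pow3_add_lt hj)

theorem digit_vec' {y : ℕ → ℕ} (hy : ∀ n, y n < 2^(Nat.factorial n)) {k j : ℕ}
    (hj : j < ss k) : digit k (vec y k) j = y (k^3 + j) := by
  unfold vec
  rw [digit_vecL _ _ _ hj, getD_map_range y (pow3_add_lt hj)]
  intro j hj
  rw [getD_map_range y (pow3_add_lt hj)]
  exact lt_BB_of hy (pow3_add_lt hj)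

theorem hard {A : Set ℕ} (hA : A ∈ DNeqStar (fun n => 2^(2^n))) :
    A ∈ DNeqStar (fun n => 2^(Nat.factorial n)) := by
  obtain ⟨x, hxA, hx⟩ := hA
  have hxR : Rec {oracleFn A} x := RecursiveIn.iff_nat.1 hxA
  -- first functional
  let Φ : ℕ → ℕ := fun m => g1 m ((List.range ((kM m + 1)^5)).map x)
  have hΦR : Rec {oracleFn A} Φ :=
    hxR.apply2 prim_g1 ((prim_powc 5).comp (Primrec.succ.comp prim_kM))
  by_cases hΦ : ∀ y : ℕ → ℕ, Computable y → (∀ n, y n < 2^(Nat.factorial n)) →
      {n | Φ n = y n}.Infinite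
  · exact ⟨Φ, RecursiveIn.iff_nat.2 hΦR, hΦ⟩
  push Not at hΦ
  obtain ⟨z, hzc, hz, hfin⟩ := hΦ
  obtain ⟨m0, hm0⟩ : ∃ m0, ∀ m ≥ m0, Φ m ≠ z m := by
    obtain ⟨b, hb⟩ := hfin.bddAbove
    refine ⟨b+1, fun m hm h => ?_⟩
    have := hb (show m ∈ {n | Φ n = z n} from h)
    omega
  -- votes in block k
  let V : ℕ → List ℕ := fun k => votes ((List.range ((k+1)^5)).map x) k
  have hVlen : ∀ k, (V k).length = NN k := by intro k; simp [V, votes]
  have hidx : ∀ k i, i < NN k → k^5 + i < (k+1)^5 := by
    intro k i hi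
    unfold NN at hi
    omega
  have hVget : ∀ k i, i < NN k → (V k).getD i 0 = vote k (x (k^5+i)) := by
    intro k i hi
    simp only [V, votes]
    rw [List.getD_eq_getElem _ _ (by simpa using hi)]
    simp only [List.getElem_map, List.getElem_range]
    rw [getD_map_range x (hidx k i hi)]
  -- the block of z is unpopular for large k
  have hunpop : ∀ k ≥ m0, (posEq (V k) (vec z k)).length < ss k := by
    intro k hk
    by_contra hcon
    rw [not_lt] at hcon
    obtain ⟨i, hi, hiv⟩ := exists_posPop (V k) (vec z k) (ss k) (ss_pos k) hcon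
    have hiN : i < NN k := by
      unfold posPop at hi
      rw [List.mem_filter, List.mem_range, hVlen] at hi
      exact hi.1
    obtain ⟨j, hj, hji⟩ := exists_index hi
    have hjs : j < ss k := by
      have h1 := length_posPop (V k) (ss k)
      rw [hVlen] at h1
      have h2 := NN_le k
      have h3 : (posPop (V k) (ss k)).length ≤ ss k :=
        Nat.le_of_mul_le_mul_right (h1.trans h2) (ss_pos k)
      omega
    have hkM : kM (k^3 + j) = k := kM_eq hjs
    refine hm0 (k^3 + j) ?_ ?_
    · have : k ≤ k^3 := Nat.le_self_pow (by norm_num) k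
      omega
    · show g1 (k^3+j) ((List.range ((kM (k^3+j) + 1)^5)).map x) = z (k^3+j)
      unfold g1
      rw [hkM, Nat.add_sub_cancel_left]
      rw [show votes ((List.range ((k+1)^5)).map x) k = V k from rfl, hji,
        getD_map_range x (hidx k i hiN), ← hVget k i hiN, hiv, digit_vec' hz hjs]
  -- second functional
  let Ψ : ℕ → ℕ := fun m => g2 m ((List.range ((kM m + 1)^5)).map x)
    ((List.range ((kM m + 1)^3)).map z)
  have hΨR : Rec {oracleFn A} Ψ :=
    hxR.apply3 (Rec.of_computable hzc) prim_g2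
      ((prim_powc 5).comp (Primrec.succ.comp prim_kM))
      ((prim_powc 3).comp (Primrec.succ.comp prim_kM))
  refine ⟨Ψ, RecursiveIn.iff_nat.2 hΨR, ?_⟩
  intro y hyc hy
  -- the target for x
  let w : ℕ → ℕ := fun n => g3 n ((List.range ((kI n + 1)^3)).map z)
    ((List.range ((kI n + 1)^3)).map y)
  have hwc : Computable w := by
    apply computable_of_rec_empty
    exact (Rec.of_computable hzc).apply3 (Rec.of_computable hyc) prim_g3
      ((prim_powc 3).comp (Primrec.succ.comp prim_kI))
      ((prim_powc 3).comp (Primrec.succ.comp prim_kI))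
  have hwval : ∀ n, 10 ≤ kI n → w n = vec z (kI n) + WW (kI n) * vec y (kI n) := by
    intro n hn
    simp only [w, g3, if_pos hn]
    rfl
  have hwlt : ∀ n, w n < 2^(2^n) := by
    intro n
    by_cases hn : 10 ≤ kI n
    · rw [hwval n hn]
      refine lt_of_lt_of_le ?_ (size_bound hn (kI_spec n))
      have h1 := vec_lt hz (kI n)
      have h2 := vec_lt hy (kI n)
      calc vec z (kI n) + WW (kI n) * vec y (kI n)
          < WW (kI n) + WW (kI n) * vec y (kI n) := Nat.add_lt_add_right h1 _
        _ = WW (kI n) * (vec y (kI n) + 1) := by ring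
        _ ≤ WW (kI n) * WW (kI n) := Nat.mul_le_mul_left _ h2
    · simp only [w, g3, if_neg hn]
      positivity
  have hinf := hx w hwc hwlt
  rw [Set.infinite_iff_exists_gt]
  intro M
  obtain ⟨n, hn, hnM⟩ := hinf.exists_gt ((max (M+1) (max m0 10))^5)
  have hkn : max (M+1) (max m0 10) ≤ kI n := le_kI hnM.le
  set k := kI n with hkdef
  have hk10 : 10 ≤ k := by omega
  have hkm0 : m0 ≤ k := by omega
  have hkM' : M + 1 ≤ k := by omega
  have hxn : x n = vec z k + WW k * vec y k := by
    rw [← hwval n hk10]; exact hn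
  have hn5 : k^5 ≤ n := kI_spec n
  have hn5' : n < (k+1)^5 := lt_kI_succ n
  let i := n - k^5
  have hiN : i < NN k := by
    simp only [i]
    unfold NN
    omega
  have hni : k^5 + i = n := by simp only [i]; omega
  have hvz := vec_lt hz k
  have hvy := vec_lt hy k
  have hvote : vote k (x n) = vec z k := by
    unfold vote
    rw [hxn, Nat.add_mul_mod_self_left, Nat.mod_eq_of_lt hvz]
  have hwp : wpt k (x n) = vec y k := by
    unfold wpt
    rw [hxn, Nat.add_mul_div_left _ _ (by omega), Nat.div_eq_of_lt hvz, Nat.zero_add,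
      Nat.mod_eq_of_lt hvy]
  have himem : i ∈ posEq (V k) (vec z k) := by
    unfold posEq
    rw [List.mem_filter, List.mem_range, hVlen]
    refine ⟨hiN, ?_⟩
    rw [decide_eq_true_eq, hVget k i hiN, hni, hvote]
  obtain ⟨j, hj, hji⟩ := exists_index himem
  have hjs : j < ss k := hj.trans (hunpop k hkm0)
  refine ⟨k^3 + j, ?_, ?_⟩
  · show Ψ (k^3+j) = y (k^3+j)
    have hkMj : kM (k^3 + j) = k := kM_eq hjs
    simp only [Ψ]
    unfold g2
    rw [hkMj, Nat.add_sub_cancel_left]
    rw [show votes ((List.range ((k+1)^5)).map x) k = V k from rfl,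
      show vecL ((List.range ((k+1)^3)).map z) k = vec z k from rfl, hji,
      getD_map_range x (hidx k i hiN), hni, hwp, digit_vec' hy hjs]
  · have : k ≤ k^3 := Nat.le_self_pow (by norm_num) k
    omega

theorem two_pow_le_factorial {n : ℕ} (hn : 4 ≤ n) : 2^n ≤ Nat.factorial n := by
  induction n, hn using Nat.le_induction with
  | base => decide
  | succ n hn ih =>
    rw [pow_succ, Nat.factorial_succ, mul_comm]
    exact Nat.mul_le_mul (by omega) ih

theorem easy {A : Set ℕ} (hA : A ∈ DNeqStar (fun n => 2^(Nat.factorial n))) :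
    A ∈ DNeqStar (fun n => 2^(2^n)) := by
  obtain ⟨x, hxA, hx⟩ := hA
  refine ⟨x, hxA, ?_⟩
  intro y hyc hy
  let y' : ℕ → ℕ := fun n => if n < 4 then 0 else y n
  have hy'c : Computable y' := by
    refine (Computable.cond (c := fun n => decide (n < 4)) ?_ (Computable.const 0) hyc).of_eq
      fun n => ?_
    · exact (Primrec.nat_lt.comp Primrec.id (Primrec.const 4)).decide.to_comp
    · by_cases h : n < 4 <;> simp [y', h]
  have hy' : ∀ n, y' n < 2^(Nat.factorial n) := by
    intro n
    by_cases h : n < 4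
    · simp only [y', if_pos h]; positivity
    · simp only [y', if_neg h]
      exact lt_of_lt_of_le (hy n) (Nat.pow_le_pow_right (by norm_num)
        (two_pow_le_factorial (by omega)))
  have h := hx y' hy'c hy'
  have hsub : {n | x n = y' n} ⊆ {n | x n = y n} ∪ Set.Iio 4 := by
    intro n hn
    by_cases h4 : n < 4
    · exact Or.inr h4
    · left
      have : y' n = y n := by simp only [y', if_neg h4]
      simpa [this] using hn
  by_contra hcon
  rw [Set.not_infinite] at hcon
  exact h ((hcon.union (Set.finite_Iio 4)).subset hsub)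

/-- The two classes `D(≠*, 2^(n!))` and `D(≠*, 2^(2^n))` coincide. -/
theorem result : DNeqStar (fun n => 2^(Nat.factorial n)) = DNeqStar (fun n => 2^(2^n)) :=
  Set.Subset.antisymm (fun _ h => easy h) (fun _ h => hard h)

end Pool.Agent.Results.MP_1f9696_lc.ClassesEqual
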